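import Pool.Agent.MT100D.Stmts
import Pool.Agent.Helper43_MT100G.Bas

/-! MT100-D, module BASD: the solution near infinity (port of the module of helper43). -/

set_option autoImplicit false

namespace Pool.Agent.MT100D.H97

open Matrix Polynomial Pool.Agent.MT100 Pool.Agent.MT100G Pool.Agent.MT100A Pool.Agent.Helper78_MT
open Pool.Agent.MT100G.H43

theorem ac_C (r : ℚ) (x : ℂ) : AC (PowerSeries.C r) x ∧ evC (PowerSeries.C r) x = (r : ℂ) := by
  have h : (PowerSeries.C r : PowerSeries ℚ) = ((C r : ℚ[X]) : PowerSeries ℚ) := by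
    rw [Polynomial.coe_C]
  rw [h]
  refine ⟨(ac_poly _ x).1, ?_⟩
  rw [(ac_poly _ x).2, Polynomial.map_C, Polynomial.eval_C]
  simp

variable {d : Type} [Fintype d] [DecidableEq d]

theorem pow_com {N : Matrix d d ℤ} {δ : d → ℚ} (h : ∀ i j, N i j ≠ 0 → δ i = δ j) (t : ℕ) :
    ∀ i j, (N ^ t) i j ≠ 0 → δ i = δ j := by
  induction t with
  | zero =>
    intro i j hij
    rw [pow_zero, Matrix.one_apply] at hij
    by_cases h0 : i = j
    · rw [h0]
    · rw [if_neg h0] at hij
      exact absurd rfl hij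
  | succ t ih =>
    intro i j hij
    rw [pow_succ, Matrix.mul_apply] at hij
    obtain ⟨k, -, hk⟩ := Finset.exists_ne_zero_of_sum_ne_zero hij
    exact (ih i k (left_ne_zero_of_mul hk)).trans (h k j (right_ne_zero_of_mul hk))

theorem eN_com {N : Matrix d d ℤ} {δ : d → ℚ} (h : ∀ i j, N i j ≠ 0 → δ i = δ j) (x : ℂ)
    (i j : d) (hij : eN N x i j ≠ 0) : δ i = δ j := by
  rw [eN_entry] at hij
  obtain ⟨t, -, ht⟩ := Finset.exists_ne_zero_of_sum_ne_zero hij
  refine pow_com h t i j fun h0 => ?_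
  rw [h0] at ht
  exact ht (by simp)

theorem diag_eN {N : Matrix d d ℤ} {δ : d → ℚ} (h : ∀ i j, N i j ≠ 0 → δ i = δ j) (x : ℂ) :
    (diagonal fun i => ((δ i : ℚ) : ℂ)) * eN N x = eN N x * diagonal fun i => ((δ i : ℚ) : ℂ) := by
  ext i j
  rw [Matrix.diagonal_mul, Matrix.mul_diagonal]
  by_cases h0 : eN N x i j = 0
  · rw [h0, mul_zero, zero_mul]
  · rw [eN_com h x i j h0, mul_comm]

theorem yd_entry (H : Matrix d d (PowerSeries ℚ)) (N : Matrix d d ℤ) (δ : d → ℚ) (w : ℂ)
    (i j : d) : YD H N δ w i j = YH H N w i j * Complex.exp ((δ j : ℂ) * -Complex.log w) := by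
  unfold YD ed
  rw [Matrix.mul_diagonal]

/-- BASD -/
theorem bas : BasDStmt := by
  intro d _ _ F
  obtain ⟨H, K, N, dl, q, B, hS⟩ := F
  -- radii
  have hH := fun i j => gtype_near (hS.gH i j)
  have hK := fun i j => gtype_near (hS.gK i j)
  choose δH hδH hHx using hH
  choose δK hδK hKx using hK
  obtain ⟨δq, hδq, hqx⟩ := zC_ne q hS.q0
  obtain ⟨δ, hδ, hδl⟩ : ∃ δ : ℝ, 0 < δ ∧ δ ≤ δq ∧ ∀ i j, δ ≤ δH i j ∧ δ ≤ δK i j := by
    have h1 : ∀ s : Finset (d × d), ∃ δ : ℝ, 0 < δ ∧ δ ≤ δq ∧
        ∀ p ∈ s, δ ≤ δH p.1 p.2 ∧ δ ≤ δK p.1 p.2 := by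
      intro s
      classical
      induction s using Finset.induction_on with
      | empty => exact ⟨δq, hδq, le_rfl, fun p hp => absurd hp (Finset.notMem_empty p)⟩
      | insert a s ha ih =>
        obtain ⟨δ, h1, h2, h3⟩ := ih
        refine ⟨min δ (min (δH a.1 a.2) (δK a.1 a.2)), lt_min h1 (lt_min (hδH _ _) (hδK _ _)),
          (min_le_left _ _).trans h2, fun p hp => ?_⟩
        rcases Finset.mem_insert.mp hp with rfl | hp
        · exact ⟨(min_le_right _ _).trans (min_le_left _ _),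
            (min_le_right _ _).trans (min_le_right _ _)⟩
        · exact ⟨(min_le_left _ _).trans (h3 p hp).1, (min_le_left _ _).trans (h3 p hp).2⟩
    obtain ⟨δ, h1, h2, h3⟩ := h1 Finset.univ
    exact ⟨δ, h1, h2, fun i j => h3 (i, j) (Finset.mem_univ _)⟩
  have hgood : ∀ w : ℂ, 1 / δ < w.re → ‖w⁻¹‖ < δ ∧ w ≠ 0 ∧ 0 < w.re := by
    intro w hw
    have h0 : 0 < w.re := lt_trans (by positivity) hw
    have hw0 : w ≠ 0 := by
      intro h
      rw [h] at h0
      simp at h0
    have hn : 1 / δ < ‖w‖ := lt_of_lt_of_le hw (Complex.re_le_norm w)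
    refine ⟨?_, hw0, h0⟩
    rw [norm_inv, inv_lt_comm₀ (norm_pos_iff.mpr hw0) hδ, ← one_div]
    exact hn
  refine ⟨1 / δ, ⟨by positivity, ?_⟩⟩
  intro c ρ hρ hsub
  show SolOn q B c ρ (YD H N dl)
  have hd : ∀ w ∈ Metric.ball c ρ, IsUnit (YD H N dl w).det := by
    intro w hw
    obtain ⟨h1, h2, h3⟩ := hgood w (hsub hw)
    have hA : ∀ i j, AC (H i j) w⁻¹ := fun i j =>
      (hHx i j w⁻¹ (lt_of_lt_of_le h1 (hδl.2 i j).1)).1
    have hA' : ∀ i j, AC (K i j) w⁻¹ := fun i j =>
      (hKx i j w⁻¹ (lt_of_lt_of_le h1 (hδl.2 i j).2)).1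
    have hHK : H.map (fun f => evC f w⁻¹) * K.map (fun f => evC f w⁻¹) = 1 := by
      rw [← (ac_mmul hA hA').2, hS.inv]
      ext i j
      rw [Matrix.map_apply, Matrix.one_apply, Matrix.one_apply]
      by_cases hij : i = j
      · rw [if_pos hij, if_pos hij]
        have := (ac_int 1 w⁻¹).2
        rwa [Int.cast_one, Int.cast_one] at this
      · rw [if_neg hij, if_neg hij]
        have := (ac_int 0 w⁻¹).2
        rwa [Int.cast_zero, Int.cast_zero] at this
    unfold YD YH
    rw [Matrix.det_mul, Matrix.det_mul]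
    refine IsUnit.mul (IsUnit.mul ?_ ?_) ?_
    · have := congrArg Matrix.det hHK
      rw [Matrix.det_mul, Matrix.det_one] at this
      exact IsUnit.of_mul_eq_one _ this
    · have := congrArg Matrix.det (eN_mul_neg N hS.nil (-Complex.log w))
      rw [Matrix.det_mul, Matrix.det_one] at this
      exact IsUnit.of_mul_eq_one _ this
    · unfold ed
      rw [Matrix.det_diagonal, isUnit_iff_ne_zero]
      exact Finset.prod_ne_zero_iff.2 fun i _ => Complex.exp_ne_zero _
  refine ⟨hρ, fun w hw => ?_, hd, fun w hw i j => ?_⟩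
  · obtain ⟨h1, h2, h3⟩ := hgood w (hsub hw)
    exact ⟨h2, hqx _ (lt_of_lt_of_le h1 hδl.1) (inv_ne_zero h2)⟩
  · obtain ⟨h1, h2, h3⟩ := hgood w (hsub hw)
    have hq1 : zC q w⁻¹ ≠ 0 := hqx _ (lt_of_lt_of_le h1 hδl.1) (inv_ne_zero h2)
    have hA := fun i j => hHx i j w⁻¹ (lt_of_lt_of_le h1 (hδl.2 i j).1)
    have hslit : w ∈ Complex.slitPlane := Or.inl h3
    have hlog : HasDerivAt (fun x => -Complex.log x) (-w⁻¹) w :=
      (Complex.hasDerivAt_log hslit).neg
    have hinv : HasDerivAt (fun x : ℂ => x⁻¹) (-(w ^ 2)⁻¹) w := hasDerivAt_inv h2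
    have hD : HasDerivAt (fun x => YH H N x i j)
        (∑ k, (evC (dv (H i k)) w⁻¹ * (-(w ^ 2)⁻¹) * eN N (-Complex.log w) k j +
          evC (H i k) w⁻¹ *
            ((N.map (fun y : ℤ => (y : ℂ)) * eN N (-Complex.log w)) k j * (-w⁻¹)))) w := by
      have he : (fun x => YH H N x i j) =
          fun x => ∑ k, evC (H i k) x⁻¹ * eN N (-Complex.log x) k j := by
        funext x
        unfold YH
        rw [Matrix.mul_apply]
        rfl
      rw [he]
      refine HasDerivAt.fun_sum fun k _ => ?_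
      refine HasDerivAt.mul ?_ ?_
      · exact HasDerivAt.comp w (hA i k).2.2 hinv
      · exact HasDerivAt.comp w (eN_deriv N hS.nil (-Complex.log w) k j) hlog
    have hE : HasDerivAt (fun x => Complex.exp ((dl j : ℂ) * -Complex.log x))
        (Complex.exp ((dl j : ℂ) * -Complex.log w) * ((dl j : ℂ) * -w⁻¹)) w :=
      (hlog.const_mul (dl j : ℂ)).cexp
    have hDE := hD.mul hE
    have he : (fun x => YD H N dl x i j) =
        (fun x => YH H N x i j) * fun x => Complex.exp ((dl j : ℂ) * -Complex.log x) := by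
      funext x
      rw [yd_entry]
      rfl
    rw [he]
    refine hDE.congr_deriv ?_
    -- the differential equation
    set Em := eN N (-Complex.log w) with hEm
    set Nm : Matrix d d ℂ := N.map (fun y : ℤ => (y : ℂ)) with hNm
    set Dm : Matrix d d ℂ := diagonal fun i => ((dl i : ℚ) : ℂ) with hDm
    set Hm : Matrix d d ℂ := H.map (fun f => evC f w⁻¹) with hHm
    set Hd : Matrix d d ℂ := H.map (fun f => evC (dv f) w⁻¹) with hHd
    set Bm : Matrix d d ℂ := B.map (fun p => zC p w⁻¹) with hBm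
    have hode : (zC q w⁻¹ * w⁻¹) • Hd = Bm * Hm - zC q w⁻¹ • (Hm * (Nm + Dm)) := by
      ext a b
      have h4 := congrArg (fun M : Matrix d d (PowerSeries ℚ) => evC (M a b) w⁻¹) hS.ode
      simp only [Matrix.smul_apply, Matrix.sub_apply, Matrix.map_apply, smul_eq_mul] at h4
      have hBH := ac_mmul (A := B.map zp) (B := H) (x := w⁻¹)
        (fun i j => (ac_zp (B i j) w⁻¹).1) (fun i j => (hA i j).1)
      have hHN := ac_mmul (A := H) (B := (AA N dl).map (fun x => PowerSeries.C x)) (x := w⁻¹)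
        (fun i j => (hA i j).1) (fun i j => (ac_C (AA N dl i j) w⁻¹).1)
      have hqX := ac_mul (ac_zp q w⁻¹).1 (ac_X w⁻¹).1
      have h5 := ac_mul hqX.1 (hA a b).2.1
      have h6 := ac_mul (ac_zp q w⁻¹).1 (hHN.1 a b)
      have h7 := ac_sub (hBH.1 a b) h6.1
      rw [h5.2, hqX.2, (ac_zp q w⁻¹).2, (ac_X w⁻¹).2, h7.2, h6.2, (ac_zp q w⁻¹).2] at h4
      have h8 : evC ((B.map zp * H) a b) w⁻¹ = (Bm * Hm) a b := by
        have := congrFun (congrFun hBH.2 a) b
        rw [Matrix.map_apply] at this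
        rw [this]
        have h9 : (B.map zp).map (fun f => evC f w⁻¹) = Bm := by
          ext a b
          simp only [Matrix.map_apply, hBm]
          exact (ac_zp _ _).2
        rw [h9]
      have h9 : evC ((H * (AA N dl).map (fun x => PowerSeries.C x)) a b) w⁻¹ =
          (Hm * (Nm + Dm)) a b := by
        have := congrFun (congrFun hHN.2 a) b
        rw [Matrix.map_apply] at this
        rw [this]
        have h9 : ((AA N dl).map (fun x => PowerSeries.C x)).map (fun f => evC f w⁻¹) =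
            Nm + Dm := by
          ext a b
          rw [Matrix.map_apply, Matrix.map_apply, (ac_C _ _).2]
          unfold AA
          rw [Matrix.add_apply, Matrix.add_apply, Matrix.map_apply, hNm, hDm, Matrix.map_apply,
            Matrix.diagonal_apply, Matrix.diagonal_apply]
          by_cases hab : a = b
          · rw [if_pos hab, if_pos hab]
            push_cast
            ring
          · rw [if_neg hab, if_neg hab]
            push_cast
            ring
        rw [h9]
      rw [h8, h9] at h4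
      simp only [Matrix.smul_apply, Matrix.sub_apply, smul_eq_mul, hHd, Matrix.map_apply]
      exact h4
    have hsum : (∑ k, (evC (dv (H i k)) w⁻¹ * (-(w ^ 2)⁻¹) * Em k j +
          evC (H i k) w⁻¹ * ((Nm * Em) k j * (-w⁻¹)))) =
        (-(w ^ 2)⁻¹) * (Hd * Em) i j + (-w⁻¹) * (Hm * (Nm * Em)) i j := by
      rw [Finset.sum_add_distrib, Matrix.mul_apply, Matrix.mul_apply, Finset.mul_sum,
        Finset.mul_sum]
      congr 1
      · refine Finset.sum_congr rfl fun k _ => ?_
        simp only [hHd, Matrix.map_apply]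
        ring
      · refine Finset.sum_congr rfl fun k _ => ?_
        simp only [hHm, Matrix.map_apply]
        ring
    rw [hsum]
    have hY : YH H N w = Hm * Em := rfl
    have hDE' : Dm * Em = Em * Dm := diag_eN hS.com (-Complex.log w)
    have h20 : (Hm * ((Nm + Dm) * Em)) i j =
        (Hm * (Nm * Em)) i j + (Hm * Em) i j * (dl j : ℂ) := by
      rw [Matrix.add_mul, Matrix.mul_add, Matrix.add_apply, hDE', ← Matrix.mul_assoc Hm Em Dm,
        hDm, Matrix.mul_diagonal]
    have h10 : w⁻¹ * (Hd * Em) i j =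
        (zC q w⁻¹)⁻¹ * (Bm * (Hm * Em)) i j - (Hm * ((Nm + Dm) * Em)) i j := by
      have h11 := congrArg (fun M : Matrix d d ℂ => (M * Em) i j) hode
      simp only [Matrix.smul_mul, Matrix.sub_mul, Matrix.smul_apply, Matrix.sub_apply,
        smul_eq_mul, Matrix.mul_assoc] at h11
      have key : ∀ (Q x a b c : ℂ), Q ≠ 0 → Q * x * a = b - Q * c → x * a = Q⁻¹ * b - c := by
        intro Q x a b c hQ h
        have : b = Q * x * a + Q * c := by rw [h]; ring
        rw [this]
        field_simp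
        ring
      exact key _ _ _ _ _ hq1 h11
    have h13 : (w ^ 2)⁻¹ * (Hd * Em) i j = w⁻¹ * (w⁻¹ * (Hd * Em) i j) := by
      field_simp
    have h14 : (Bm * YD H N dl w) i j = (Bm * (Hm * Em)) i j *
        Complex.exp ((dl j : ℂ) * -Complex.log w) := by
      unfold YD ed
      rw [hY, ← Matrix.mul_assoc, Matrix.mul_diagonal]
    rw [h14, hY, neg_mul, h13, h10, h20, mul_inv]
    ring

end Pool.Agent.MT100D.H97
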