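import Pool.Agent.MT100D.Stmts
import Pool.Agent.Helper81_MTA.Hmn

/-! MT100-D, module HMND: the monodromy group is the monodromy group of a half plane (port of the module
of helper81). -/

set_option autoImplicit false

namespace Pool.Agent.MT100D.H97

open Matrix Polynomial Pool.Agent.MT100 Pool.Agent.MT100G Pool.Agent.MT100A Pool.Agent.Helper78_MT
open Pool.Agent.MT100A.H81

/-- HMND -/
theorem hmn : HmnDStmt := by
  intro d _ _ q B R Y hB
  have hsol := hB.sol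
  have hq0 : q ≠ 0 := by
    intro h0
    have h1 := (hsol ((R + 2 : ℝ) : ℂ) 1 one_pos (MT100G.H19.ball_half (by linarith))).reg
      ((R + 2 : ℝ) : ℂ) (Metric.mem_ball_self one_pos)
    exact h1.2 (by rw [h0]; simp [zC])
  have hfin := sing_finite hq0
  obtain ⟨b, hb⟩ : BddBelow (Complex.re '' {w : ℂ | w = 0 ∨ zC q w⁻¹ = 0}) :=
    (hfin.image _).bddBelow
  refine ⟨min b R - 3, fun g hg => ?_⟩
  obtain ⟨m, hm⟩ : ∃ m : ℝ, m = min b R - 3 := ⟨_, rfl⟩
  rw [← hm]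
  have hmb : m + 3 ≤ b := by rw [hm]; linarith [min_le_left b R]
  have hmR : m + 3 ≤ R := by rw [hm]; linarith [min_le_right b R]
  have hreg : ∀ w : ℂ, w.re < m + 2 → w ≠ 0 ∧ zC q w⁻¹ ≠ 0 := by
    intro w hw
    by_contra hcon
    have h1 : w ∈ {w : ℂ | w = 0 ∨ zC q w⁻¹ = 0} := by
      show w = 0 ∨ zC q w⁻¹ = 0
      by_contra h2
      push Not at h2
      exact hcon h2
    have h3 := hb (Set.mem_image_of_mem Complex.re h1)
    linarith
  have hg' : ∀ᶠ c : ℝ in Filter.atTop, Cnt q B Set.univ ((c : ℂ), 1, Y)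
    ((c : ℂ), 1, fun w => Y w * g) := hg
  show ∀ᶠ c : ℝ in Filter.atTop, Cnt q B {w | m < w.re} ((c : ℂ), 1, Y)
    ((c : ℂ), 1, fun w => Y w * g)
  filter_upwards [hg', Filter.eventually_gt_atTop (R + 1)] with c h1 h2
  have hbR : Metric.ball (c : ℂ) 1 ⊆ {w : ℂ | R < w.re} := MT100G.H19.ball_half h2
  have hbm : Metric.ball (c : ℂ) 1 ⊆ {w : ℂ | m < w.re} := by
    intro w hw
    have h3 : R < w.re := hbR hw
    show m < w.re
    linarith
  have hS : SolOn q B (c : ℂ) 1 Y := hsol c 1 one_pos hbR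
  obtain ⟨h3, h4⟩ := retract (x0 := ((c : ℂ), 1, Y)) hreg hS hbm h1
  have hcc : (c : ℂ) ∈ Metric.ball (c : ℂ) 1 := Metric.mem_ball_self one_pos
  have h5 := (qq_ra (hbm hcc) (ls_of h3 hcc)).1 (h4 (c : ℂ) hcc)
  obtain ⟨e0, he0, h6⟩ := h5
  have h7 := h6 (min e0 1) (lt_min he0 one_pos) (min_le_left _ _)
  have hb1 : Metric.ball (c : ℂ) (min e0 1) ⊆ Metric.ball (c : ℂ) 1 :=
    Metric.ball_subset_ball (min_le_right _ _)
  exact h7.tail ⟨MT100G.H11.solOn_mono h3 (lt_min he0 one_pos) hb1, h3, hb1.trans hbm, hbm,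
    ⟨(c : ℂ), Metric.mem_ball_self (lt_min he0 one_pos), hcc⟩, fun _ _ => rfl⟩

end Pool.Agent.MT100D.H97
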