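import Pool.Agent.MT100D.Stmts
import Pool.Agent.Helper2_MTG.Num

/-! MT100-D, module NMAD: numerical relations at `1/n` persist under the product of the Zariski
closures of the monodromy group (port of the module of helper47). -/

set_option autoImplicit false

namespace Pool.Agent.MT100D.H97

open Matrix Polynomial Pool.Agent.MT100 Pool.Agent.MT100G Pool.Agent.MT100A
open Pool.Agent.Helper2_MTG (Sm ev_prod)

/-- NMAD -/
theorem nma (hfsa : FsaDStmt) (hgfm : GfmDStmt) (htrg : TrgDStmt) (hsys : SysDStmt)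
    (heva : EvaStmt) : NmaDStmt := by
  intro d _ _ F
  obtain ⟨D, hD⟩ := hfsa d F
  refine ⟨D, ?_⟩
  intro ι _ _ κ hκ k
  have hT : ∀ κ' : ℕ, IsGW (F.T κ') := fun κ' => htrg d F.H F.K F.N F.δ F.q F.B F.sys κ'
  have hG : IsGW (kr fun s : ι × Fin k => F.T (κ s.1)) :=
    hsys (ι × Fin k) d (fun s => F.T (κ s.1)) fun s => hT _
  obtain ⟨n0, h0⟩ := hgfm (ι × Fin k → d) _ hG
  obtain ⟨R0, hR⟩ := hD ι κ hκ k
  -- convergence
  have hconv : ∀ (i : ι) (a b : d), ∀ᶠ n : ℕ in Filter.atTop, Sm (F.T (κ i) a b) (n : ℝ)⁻¹ := by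
    intro i a b
    obtain ⟨K, N, δ', q, B, hgs⟩ := hT (κ i)
    obtain ⟨δ, hδ, hs⟩ := heva.1 _ (hgs.gH a b)
    have hlim : Filter.Tendsto (fun n : ℕ => (n : ℝ)⁻¹) Filter.atTop (nhds 0) :=
      tendsto_inv_atTop_zero.comp tendsto_natCast_atTop_atTop
    have h1 : ∀ᶠ n : ℕ in Filter.atTop, |(n : ℝ)⁻¹| < δ := by
      have := (hlim.abs).eventually (gt_mem_nhds (by rw [abs_zero]; exact hδ))
      exact this
    exact h1.mono fun n hn => hs _ hn
  have hall : ∀ᶠ n : ℕ in Filter.atTop, ∀ (i : ι) (a b : d), Sm (F.T (κ i) a b) (n : ℝ)⁻¹ := by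
    rw [Filter.eventually_all]
    intro i
    rw [Filter.eventually_all]
    intro a
    rw [Filter.eventually_all]
    intro b
    exact hconv i a b
  have hbig : ∀ᶠ n : ℕ in Filter.atTop, R0 < (n : ℝ) :=
    (tendsto_natCast_atTop_atTop (R := ℝ)).eventually (Filter.eventually_gt_atTop R0)
  obtain ⟨n1, hn1⟩ := Filter.eventually_atTop.1 (hall.and hbig)
  refine ⟨max n0 n1, ?_⟩
  intro n hn c hc g hg
  have hn0 : n0 ≤ n := le_trans (le_max_left _ _) hn
  obtain ⟨hcv, hRn⟩ := hn1 n (le_trans (le_max_right _ _) hn)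
  have hev : ∀ β α : ι × Fin k → d, ev (kr (fun s : ι × Fin k => F.T (κ s.1)) β α) (n : ℝ)⁻¹ =
      ∏ s, ev (F.T (κ s.1) (β s) (α s)) (n : ℝ)⁻¹ := by
    intro β α
    exact (ev_prod heva Finset.univ (fun s : ι × Fin k => F.T (κ s.1) (β s) (α s)) (n : ℝ)⁻¹
      fun s _ => hcv s.1 _ _).2
  have hreal : ∑ β : ι × Fin k → d, ∑ α : ι × Fin k → d, (c β α : ℝ) *
      ev (kr (fun s : ι × Fin k => F.T (κ s.1)) β α) (n : ℝ)⁻¹ = 0 := by
    have h1 : ((∑ β : ι × Fin k → d, ∑ α : ι × Fin k → d, (c β α : ℝ) *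
      ev (kr (fun s : ι × Fin k => F.T (κ s.1)) β α) (n : ℝ)⁻¹ : ℝ) : ℂ) = 0 := by
      rw [← hc, Complex.ofReal_sum]
      refine Finset.sum_congr rfl fun β _ => ?_
      rw [Complex.ofReal_sum]
      refine Finset.sum_congr rfl fun α _ => ?_
      rw [hev, Complex.ofReal_mul, Complex.ofReal_ratCast, Complex.ofReal_prod]
      rfl
    exact Complex.ofReal_eq_zero.1 h1
  obtain ⟨p, hp, hpc⟩ := h0 n hn0 c hreal
  have h2 := hR p hp (n : ℝ) hRn g hg
  rw [Complex.ofReal_natCast] at h2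
  rw [← h2]
  refine Finset.sum_congr rfl fun β _ => ?_
  refine Finset.sum_congr rfl fun α _ => ?_
  congr 1
  rw [← hpc β α, ← eq_ratCast (algebraMap ℚ ℂ), ← Polynomial.eval₂_at_apply, map_inv₀,
    map_natCast]

end Pool.Agent.MT100D.H97
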