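import Pool.Agent.MT100D.Stmts
import Pool.Agent.Helper63_MT100G.Tu1
import Pool.Agent.Helper97_MTD.Moa

/-! MT100-D, module T1AD: the tuples of monodromy matrices form a group (port of the module of helper63
and helper69). -/

set_option autoImplicit false

namespace Pool.Agent.MT100D.H97

open Matrix Polynomial Pool.Agent.MT100 Pool.Agent.MT100G Pool.Agent.MT100A Pool.Agent.Helper78_MT
open Pool.Agent.MT100G.H63

theorem tup_monY {d : Type} [Fintype d] [DecidableEq d] {ι : Type} (q : ℤ[X]) (B : Matrix d d ℤ[X])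
    (Y : ℂ → Matrix d d ℂ) (κ : ι → ℕ) (t : (ι → Matrix d d ℂ) × ℤ) (ht : t ∈ tupY q B Y κ)
    (i : ι) : t.1 i ∈ monY q B Y Set.univ := by
  have h1 : ∀ᶠ c : ℝ in Filter.atTop, CntT q B κ ((c : ℂ), 1, (fun _ => Y), Complex.log)
    ((c : ℂ), 1, (fun i w => Y w * t.1 i),
      fun w => Complex.log w + 2 * Real.pi * Complex.I * t.2) := ht
  have h2 := (Filter.tendsto_atTop_add_const_right Filter.atTop (κ i : ℝ)
    Filter.tendsto_id).eventually h1
  show ∀ᶠ c : ℝ in Filter.atTop, Cnt q B Set.univ ((c : ℂ), 1, Y)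
    ((c : ℂ), 1, fun w => Y w * t.1 i)
  filter_upwards [h2] with c hc
  have h3 := cntT_comp hc i
  have h4 : (((id c + (κ i : ℝ) : ℝ) : ℂ) - κ i) = (c : ℂ) := by
    simp
  simp only at h3
  rw [h4] at h3
  exact h3

theorem t1a (hM : MoaDStmt) : T1aDStmt := by
  intro d _ _ q B R Y hB ι _ κ
  have hmon : ∀ t ∈ tupY q B Y κ, ∀ i, t.1 i ∈ monY q B Y Set.univ :=
    fun t ht i => tup_monY q B Y κ t ht i
  have hdet : ∀ t ∈ tupY q B Y κ, ∀ i, IsUnit (t.1 i).det := fun t ht i =>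
    (hM d q B R Y hB Set.univ).1 _ (hmon t ht i)
  refine ⟨hmon, ?_, ?_, ?_⟩
  · refine Filter.Eventually.of_forall fun c => ?_
    have h1 : (((c : ℂ), (1 : ℝ), (fun (_ : ι) => Y), Complex.log) : Pt ι d) =
        ((c : ℂ), (1 : ℝ), (fun (_ : ι) w => Y w * (1 : Matrix d d ℂ)),
          fun w => Complex.log w + 2 * Real.pi * Complex.I * ((0 : ℤ) : ℂ)) := by
      simp
    show CntT q B κ (((c : ℂ), (1 : ℝ), (fun (_ : ι) => Y), Complex.log) : Pt ι d)
      ((c : ℂ), (1 : ℝ), (fun (_ : ι) w => Y w * (1 : Matrix d d ℂ)),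
          fun w => Complex.log w + 2 * Real.pi * Complex.I * ((0 : ℤ) : ℂ))
    rw [← h1]
    exact Relation.ReflTransGen.refl
  · intro t ht t' ht'
    have h1 : ∀ᶠ c : ℝ in Filter.atTop, CntT q B κ
        ((c : ℂ), 1, (fun _ => Y), Complex.log)
        ((c : ℂ), 1, (fun i w => Y w * t.1 i),
          fun w => Complex.log w + 2 * Real.pi * Complex.I * t.2) := ht
    have h2 : ∀ᶠ c : ℝ in Filter.atTop, CntT q B κ
        ((c : ℂ), 1, (fun _ => Y), Complex.log)
        ((c : ℂ), 1, (fun i w => Y w * t'.1 i),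
          fun w => Complex.log w + 2 * Real.pi * Complex.I * t'.2) := ht'
    show ∀ᶠ c : ℝ in Filter.atTop, CntT q B κ
        ((c : ℂ), 1, (fun _ => Y), Complex.log)
        ((c : ℂ), 1, (fun i w => Y w * (t.1 i * t'.1 i)),
          fun w => Complex.log w + 2 * Real.pi * Complex.I * ((t.2 + t'.2 : ℤ) : ℂ))
    filter_upwards [h1, h2] with c hc hc'
    have h3 := cntT_act hc t'.1 (hdet t' ht') t'.2
    have h4 := hc'.trans h3
    have h5 : act t'.1 t'.2 (((c : ℂ), 1, (fun i w => Y w * t.1 i),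
          fun w => Complex.log w + 2 * Real.pi * Complex.I * t.2) : Pt ι d) =
        ((c : ℂ), 1, (fun i w => Y w * (t.1 i * t'.1 i)),
          fun w => Complex.log w + 2 * Real.pi * Complex.I * ((t.2 + t'.2 : ℤ) : ℂ)) := by
      unfold act
      simp only [Matrix.mul_assoc, Int.cast_add, mul_add, add_assoc]
    rw [h5] at h4
    exact h4
  · intro t ht
    have h1 : ∀ᶠ c : ℝ in Filter.atTop, CntT q B κ
        ((c : ℂ), 1, (fun _ => Y), Complex.log)
        ((c : ℂ), 1, (fun i w => Y w * t.1 i),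
          fun w => Complex.log w + 2 * Real.pi * Complex.I * t.2) := ht
    show ∀ᶠ c : ℝ in Filter.atTop, CntT q B κ
        ((c : ℂ), 1, (fun _ => Y), Complex.log)
        ((c : ℂ), 1, (fun i w => Y w * (t.1 i)⁻¹),
          fun w => Complex.log w + 2 * Real.pi * Complex.I * ((-t.2 : ℤ) : ℂ))
    filter_upwards [h1] with c hc
    have hi : ∀ i, IsUnit ((t.1 i)⁻¹).det := fun i => by
      rw [Matrix.det_nonsing_inv]
      exact (hdet t ht i).ringInverse
    have h3 := cntT_act (cntT_symm hc) (fun i => (t.1 i)⁻¹) hi (-t.2)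
    have h5 : act (fun i => (t.1 i)⁻¹) (-t.2)
        (((c : ℂ), 1, (fun i w => Y w * t.1 i),
          fun w => Complex.log w + 2 * Real.pi * Complex.I * t.2) : Pt ι d) =
        ((c : ℂ), 1, (fun _ => Y), Complex.log) := by
      unfold act
      have h6 : ∀ i, t.1 i * (t.1 i)⁻¹ = 1 := fun i => Matrix.mul_nonsing_inv _ (hdet t ht i)
      simp only [Matrix.mul_assoc, h6, Matrix.mul_one, Int.cast_neg, mul_neg,
        add_neg_cancel_right]
    have h7 : act (fun i => (t.1 i)⁻¹) (-t.2)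
        (((c : ℂ), 1, (fun _ => Y), Complex.log) : Pt ι d) =
        ((c : ℂ), 1, (fun i w => Y w * (t.1 i)⁻¹),
          fun w => Complex.log w + 2 * Real.pi * Complex.I * ((-t.2 : ℤ) : ℂ)) := rfl
    rw [h5, h7] at h3
    exact h3

end Pool.Agent.MT100D.H97
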