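import Pool.Agent.Helper97_MTD.FinB
import Pool.Agent.Helper97_MTD.Bas
import Pool.Agent.Helper97_MTD.Hmn
import Pool.Agent.Helper97_MTD.T1a
import Pool.Agent.Helper97_MTD.Nma
import Pool.Agent.Helper46_MTD.Fsa
import Pool.Agent.Helper46_MTD.Pma
import Pool.Agent.Helper64_MTD.Ela
import Pool.Agent.Helper78_MTD.D
import Pool.Agent.Helper78_MTD.Gfv
import Pool.Agent.Helper2_MTD.Gfm
import Pool.Agent.Helper96_MTD.Psa
import Pool.Agent.Helper96_MTD.Htr
import Pool.Agent.Helper90_MTD.Kea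
import Pool.Agent.Helper64_MTD.Vag
import Pool.Agent.Helper20_MTD.Trg
import Pool.Agent.Helper83_MTD.Sys

/-! Assembly of MT100-D. -/

set_option autoImplicit false

namespace Pool.Agent.MT100D.H97

open Matrix Polynomial Pool.Agent.MT100 Pool.Agent.MT100G Pool.Agent.MT100A Pool.Agent.Helper78_MT

universe u

theorem gfv' : GfvDStmt :=
  H78.gfvD H78.zsaD H78.zsbD H78.galD Pool.Agent.Helper51_MT.sieStmt
    Pool.Agent.Helper58_MT.recStmt MT100G.H97.eva'
theorem gfm' : GfmDStmt := H2.gfm gfv'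
theorem t1a' : T1aDStmt := t1a moa
theorem tua' : TuaDStmt := tua hmn H96.htr H90.kea
theorem psa' : PsaDStmt := H96.psa moa t1a' tua' H46.pma
theorem fsa' : FsaDStmt := H46.fsa bas H64.vagD psa' MT100G.H97.eva' H20.trgD
theorem nma' : NmaDStmt := nma fsa' gfm' H20.trgD H83.sysD MT100G.H97.eva'
theorem ela' : ElaDStmt := H64.ela nma' H64.vagD bas moa

/-- Hodge genericity of one hundred percent of the integral fibres of every family -/
theorem mad' : MaaDStmt.{u} := mad ela' bas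

/-- the Mumford-Tate conjecture for one hundred percent of the integral fibres of every family of the
first kind -/
theorem finB' (d : Type) [Fintype d] [DecidableEq d] (F : Family d) (w : ℕ) (lev : d → ℕ)
    (hw : 1 ≤ w) :
    ∃ (C : ℕ) (n1 : ℕ → ℕ), ∀ P : Matrix d d ℂ, IsUnit P.det → F.IntM P →
      ∃ S : Set ℕ, DensZero S ∧
        (∀ K n : ℕ, n1 K ≤ n → Nat.card {m : ℕ // m ∈ S ∧ n < m + K ∧ m ≤ n} ≤ C) ∧
        (∀ n : ℕ, n ∉ S → ∀ (E : Matrix d d ℚ) (V : ℕ → Submodule ℂ (d → ℂ)),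
          F.Fibre lev P w n E V → FirstKind E (F.Mo P) → TorusIn w V (F.Mo P) →
          ∀ (K : Type u) [Field K] [CharZero K], mtGroup w V K = GmM (F.Mo P) K) ∧
        ∀ ρ : (ℓ : ℕ) → [Fact ℓ.Prime] → MTL.GT →* GL d ℚ_[ℓ],
          (∀ (ℓ : ℕ) [Fact ℓ.Prime], Continuous (ρ ℓ)) →
          ∃ (T : Set ℕ) (N : ℕ → ℕ), DensZero T ∧ ∀ (ℓ : ℕ) [Fact ℓ.Prime] (n : ℕ),
            n ∉ S → n ∉ T → N ℓ ≤ n →
            ∀ (E : Matrix d d ℚ) (V : ℕ → Submodule ℂ (d → ℂ)), F.Fibre lev P w n E V →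
            FirstKind E (F.Mo P) → TorusIn w V (F.Mo P) → GeoM (F.Mo P) E (ρ ℓ) →
            ∀ ρn : MTL.GQ →* GL d ℚ_[ℓ], MTL.Specializes (ρ ℓ) n ρn →
            ∀ (K : Type u) [Field K] [CharZero K] [Algebra ℚ_[ℓ] K],
              monodromy ρn K = mtGroup w V K :=
  finB ela' bas d F w lev hw

end Pool.Agent.MT100D.H97
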