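import Pool.Agent.Helper97_MTD.Moa
import Pool.Agent.Helper97_MTA.Maa

/-! MT100-D, module MAAD: the Mumford-Tate group of one hundred percent of the fibres. -/

set_option autoImplicit false

namespace Pool.Agent.MT100D.H97

open Matrix Polynomial Pool.Agent.MT100 Pool.Agent.MT100G Pool.Agent.MT100A Pool.Agent.Helper78_MT

universe u

variable {d : Type} [Fintype d] [DecidableEq d]

/-- the rows of `Y * g` in the rational structure -/
theorem per_act (F : Family d) {P : Matrix d d ℂ} (hP : IsUnit P.det) (g : Matrix d d ℂ) (w : ℂ)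
    (a : d) : P *ᵥ (F.Y w * g) a = (P * gᵀ * P⁻¹) *ᵥ F.per P w a := by
  have h1 : (F.Y w * g) a = gᵀ *ᵥ F.Y w a := by
    rw [Matrix.mulVec_transpose]
    rfl
  unfold Family.per
  rw [h1, Matrix.mulVec_mulVec, Matrix.mulVec_mulVec, Matrix.mul_assoc,
    Matrix.nonsing_inv_mul _ hP, Matrix.mul_one]

theorem zc_sub (hB : BasDStmt) (F : Family d) : F.mo Set.univ ⊆ F.Zc := fun g hg =>
  ⟨mo_det (hB d F).choose_spec Set.univ g hg, fun _ hp => hp g hg⟩

/-- MAAD -/
theorem maa (hE : ElaDStmt) (hB : BasDStmt) (hT : TenStmt) (hU : TeuStmt) (hL : LieStmt) :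
    MaaDStmt.{u} := by
  intro d _ _ F w lev hw
  set A : Set (Fin 4 → d) := {a | 2 * w < ∑ j, lev (a j)} with hA
  obtain ⟨C, n1, h⟩ := hE d F 4 A
  refine ⟨C, n1, fun P hP hInt => ?_⟩
  set S : Set ℕ := {n | ∃ t : (Fin 4 → d) → ℚ,
      (∀ a ∈ A, ∑ β, (t β : ℂ) * ∏ j, F.per P n (a j) (β j) = 0) ∧
      ∃ g ∈ F.Zc, ∃ a ∈ A,
        ∑ β, (t β : ℂ) * ∏ j, (P *ᵥ (F.Y n * g) (a j)) (β j) ≠ 0} with hS
  obtain ⟨hwin, hden⟩ := h P hP S fun n hn => hn
  refine ⟨S, hden, hwin, fun n hn E V hFib K _ _ => ?_⟩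
  obtain ⟨hV, hInv, hFil⟩ := hFib
  have hfil : ∀ (t : (Fin 4 → d) → ℚ), (∀ (p : Fin 4 → ℕ) (x : Fin 4 → d → ℂ),
      (∀ j, x j ∈ V (p j)) → 2 * w < ∑ j, p j → ∑ β, (t β : ℂ) * ∏ j, x j (β j) = 0) →
      ∀ g ∈ F.Zc, ∀ (p : Fin 4 → ℕ) (x : Fin 4 → d → ℂ), (∀ j, x j ∈ V (p j)) →
        2 * w < ∑ j, p j →
        ∑ β, (t β : ℂ) * ∏ j, ((P * gᵀ * P⁻¹) *ᵥ x j) (β j) = 0 := by
    intro t ht g hg p x hx hp
    have hker : ∀ a ∈ A, ∑ β, (t β : ℂ) * ∏ j, F.per P n (a j) (β j) = 0 := by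
      intro a ha
      refine MT100G.H97.frm_fil t V w ht (fun j => lev (a j)) ha (fun j => F.per P n (a j)) ?_
      intro j
      rw [hFil (lev (a j))]
      exact Submodule.subset_span ⟨a j, le_refl _, rfl⟩
    refine MT100G.H97.frm_span t (P * gᵀ * P⁻¹)
      (fun j => {y | ∃ a : d, p j ≤ lev a ∧ y = F.per P n a}) ?_ x ?_
    · intro y hy
      choose a ha hya using hy
      have h2 : ∑ β, (t β : ℂ) * ∏ j, (P *ᵥ (F.Y n * g) (a j)) (β j) = 0 := by
        by_contra hne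
        refine hn ⟨t, hker, g, hg, a, ?_, hne⟩
        exact lt_of_lt_of_le hp (Finset.sum_le_sum fun j _ => ha j)
      unfold MT100G.H97.frm
      rw [← h2]
      refine Finset.sum_congr rfl fun β _ => ?_
      congr 1
      refine Finset.prod_congr rfl fun j _ => ?_
      show ((P * gᵀ * P⁻¹) *ᵥ y j) (β j) = _
      rw [hya j, per_act F hP]
    · intro j
      show x j ∈ Submodule.span ℂ {y | ∃ a : d, p j ≤ lev a ∧ y = F.per P n a}
      rw [← hFil (p j)]
      refine (?_ : V (p j) ≤ _) (hx j)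
      exact le_iSup₂_of_le (p j) (Set.mem_Ici.2 (le_refl _)) (le_refl _)
  -- the Mumford-Tate group contains the unipotents
  have hUni : ∀ u ∈ Uni (F.Mo P), u ∈ mtGroup w V ℂ := by
    rintro u ⟨X, hX, rfl, hcl⟩
    refine hL d w E V hw hV X hX (fun s => MT100A.H97.iso_zclosure hInv (hcl s)) ?_ 1
    intro t ht s
    refine hU d (F.Mo P) 4 (fun β => (t β : ℂ)) ?_ X hX hcl s
    set M : Set (Matrix d d ℤ) := {A | A.map (fun x => (x : ℂ)) ∈ F.Mo P} with hM
    have hfin := hT d w E V hw hV 4 M ?_ t ?_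
    · refine (hfin.image fun s β => ((s β : ℚ) : ℂ)).subset ?_
      rintro s ⟨γ, hγ, rfl⟩
      obtain ⟨B, hB'⟩ := hInt γ hγ
      refine ⟨_, ⟨B, by rw [hM]; show _ ∈ F.Mo P; rw [← hB']; exact hγ, rfl⟩, ?_⟩
      funext α
      show ((tA t (B.map (fun x => (x : ℚ))) α : ℚ) : ℂ) = tA (fun β => (t β : ℂ)) γ α
      unfold tA
      rw [hB']
      push_cast
      rfl
    · intro B hB'
      have h1 := hInv _ hB'
      apply Matrix.map_injective (algebraMap ℚ ℂ).injective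
      simp only
      rw [Matrix.map_mul, Matrix.map_mul, ← Matrix.transpose_map]
      have h2 : (B.map (fun x => (x : ℚ))).map (algebraMap ℚ ℂ) = B.map (fun x => (x : ℂ)) := by
        ext i j
        simp
      rw [h2]
      exact h1
    · intro B hB' p x hx hp
      obtain ⟨g, hg, hγ⟩ := hB'
      have h1 := hfil t (fun p x hx hp => ht p x hx (by omega)) g (zc_sub hB F hg) p x hx (by omega)
      rw [← hγ] at h1
      exact h1
  refine Set.Subset.antisymm ?_ ?_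
  · intro M hM I hI hT' _
    exact hM I hI hT'
  · intro M hM I hI hT'
    exact hM I hI hT' fun u hu => hUni u hu I hI hT'

end Pool.Agent.MT100D.H97
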