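import Pool.Agent.Helper97_MTD.Maa
import Pool.Agent.Helper97_MTD.Ladm
import Pool.Agent.Helper97_MTA.FinB

/-! MT100-D: the Mumford-Tate conjecture for families of the first kind, no condition at infinity. -/

set_option autoImplicit false
set_option linter.unusedSectionVars false

namespace Pool.Agent.MT100D.H97

open Matrix Polynomial Pool.Agent.MT100 Pool.Agent.MT100G Pool.Agent.MT100A Pool.Agent.Helper78_MT
  Pool.Agent.MTL

universe u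

variable {d : Type} [Fintype d] [DecidableEq d]

/-- the group of period matrices is closed under products -/
theorem Mo_mul (hB : BasDStmt) (F : Family d) {P : Matrix d d ℂ} (hP : IsUnit P.det)
    {a b : Matrix d d ℂ} (ha : a ∈ F.Mo P) (hb : b ∈ F.Mo P) : a * b ∈ F.Mo P := by
  obtain ⟨R, hR⟩ := hB d F
  obtain ⟨g, hg, rfl⟩ := ha
  obtain ⟨g', hg', rfl⟩ := hb
  refine ⟨g' * g, (moa d F.q F.B R F.Y hR Set.univ).2.2.1 g' hg' g hg, ?_⟩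
  rw [Matrix.transpose_mul]
  calc P * gᵀ * P⁻¹ * (P * g'ᵀ * P⁻¹) = P * gᵀ * (P⁻¹ * P) * g'ᵀ * P⁻¹ := by
        simp only [Matrix.mul_assoc]
    _ = P * (gᵀ * g'ᵀ) * P⁻¹ := by
        rw [Matrix.nonsing_inv_mul _ hP, Matrix.mul_one, Matrix.mul_assoc P]

/-- the main theorem, with the hypotheses on the family module -/
theorem mad (hE : ElaDStmt) (hB : BasDStmt) : MaaDStmt.{u} := maa hE hB H20.ten H78.teu H64.lie

/-- the final form for families of the first kind -/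
theorem finB (hEl : ElaDStmt) (hB : BasDStmt) (d : Type) [Fintype d] [DecidableEq d]
    (F : Family d) (w : ℕ) (lev : d → ℕ) (hw : 1 ≤ w) :
    ∃ (C : ℕ) (n1 : ℕ → ℕ), ∀ P : Matrix d d ℂ, IsUnit P.det → F.IntM P →
      ∃ S : Set ℕ, DensZero S ∧
        (∀ K n : ℕ, n1 K ≤ n → Nat.card {m : ℕ // m ∈ S ∧ n < m + K ∧ m ≤ n} ≤ C) ∧
        (∀ n : ℕ, n ∉ S → ∀ (E : Matrix d d ℚ) (V : ℕ → Submodule ℂ (d → ℂ)),
          F.Fibre lev P w n E V → FirstKind E (F.Mo P) → TorusIn w V (F.Mo P) →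
          ∀ (K : Type u) [Field K] [CharZero K], mtGroup w V K = GmM (F.Mo P) K) ∧
        ∀ ρ : (ℓ : ℕ) → [Fact ℓ.Prime] → GT →* GL d ℚ_[ℓ],
          (∀ (ℓ : ℕ) [Fact ℓ.Prime], Continuous (ρ ℓ)) →
          ∃ (T : Set ℕ) (N : ℕ → ℕ), DensZero T ∧ ∀ (ℓ : ℕ) [Fact ℓ.Prime] (n : ℕ),
            n ∉ S → n ∉ T → N ℓ ≤ n →
            ∀ (E : Matrix d d ℚ) (V : ℕ → Submodule ℂ (d → ℂ)), F.Fibre lev P w n E V →
            FirstKind E (F.Mo P) → TorusIn w V (F.Mo P) → GeoM (F.Mo P) E (ρ ℓ) →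
            ∀ ρn : GQ →* GL d ℚ_[ℓ], Specializes (ρ ℓ) n ρn →
            ∀ (K : Type u) [Field K] [CharZero K] [Algebra ℚ_[ℓ] K],
              monodromy ρn K = mtGroup w V K := by
  obtain ⟨C, n1, h⟩ := mad.{u} hEl hB d F w lev hw
  refine ⟨C, n1, fun P hP hI => ?_⟩
  obtain ⟨S, hS, hwin, h2⟩ := h P hP hI
  have hMul : ∀ a ∈ F.Mo P, ∀ b ∈ F.Mo P, a * b ∈ F.Mo P := fun a ha b hb => Mo_mul hB F hP ha hb
  have hgm : ∀ n : ℕ, n ∉ S → ∀ (E : Matrix d d ℚ) (V : ℕ → Submodule ℂ (d → ℂ)),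
      F.Fibre lev P w n E V → FirstKind E (F.Mo P) → TorusIn w V (F.Mo P) →
      ∀ (K : Type u) [Field K] [CharZero K], mtGroup w V K = GmM (F.Mo P) K := by
    intro n hn E V hF hFK hT K _ _
    rw [h2 n hn E V hF K]
    exact (ladm.{u} d (F.Mo P) hMul hI w E V hw hF.1 hF.2.1 hFK hT).1 K
  refine ⟨S, hS, hwin, hgm, fun ρ hρ => ?_⟩
  obtain ⟨T, N, hT, h3⟩ := MT100A.H34.diag_prime
    (fun ℓ n => ∀ [Fact ℓ.Prime], ∀ ρn : GQ →* GL d ℚ_[ℓ], Specializes (ρ ℓ) n ρn →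
      ∀ (K : Type u) [Field K] [Algebra ℚ_[ℓ] K], monodromy ρn K = monodromy (ρ ℓ) K) (by
    intro ℓ hℓ
    have : Fact ℓ.Prime := ⟨hℓ⟩
    obtain ⟨T, hT, h4⟩ := specialise.{u} serAll (ρ ℓ) (hρ ℓ)
    exact ⟨T, hT, fun n hn _ ρn hsp K _ _ => (h4 n hn ρn hsp).2.2 K⟩)
  refine ⟨T, N, hT, fun ℓ _ n hnS hnT hN E V hF hFK hTT hgeo ρn hsp K _ _ _ => ?_⟩
  rw [h3 ℓ Fact.out n hnT hN ρn hsp K, hgm n hnS E V hF hFK hTT K]
  exact (ladm.{u} d (F.Mo P) hMul hI w E V hw hF.1 hF.2.1 hFK hTT).2 ℓ GT (ρ ℓ) (hρ ℓ) hgeo K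

end Pool.Agent.MT100D.H97
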